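import Pool.Agent.U722.FF.Stm

/-! Project FF (helper722), package FP2: if the permutation module of a transitive action is finitely
presented then the stabilizer is finitely generated. -/

set_option autoImplicit false

namespace Pool.Agent.U97.FFP

open U722.FF MulAction

/-- the kernel of `r ↦ r • pt x` is spanned by the elements `h - 1`, `h` in the stabilizer -/
theorem ker_le {G X : Type} [Group G] [MulAction G X] (x : X) (hx : ∀ y : X, ∃ g : G, g • x = y)
    (r : MonoidAlgebra ℤ G) (hr : r • pt G x = 0) :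
    r ∈ Submodule.span (MonoidAlgebra ℤ G)
      {a | ∃ h ∈ stabilizer G x, a = MonoidAlgebra.of ℤ G h - 1} := by
  set N := Submodule.span (MonoidAlgebra ℤ G)
      {a | ∃ h ∈ stabilizer G x, a = MonoidAlgebra.of ℤ G h - 1} with hN
  choose c hc using hx
  let φ : PM G X →+ (MonoidAlgebra ℤ G ⧸ N) := PMadd G (fun y => N.mkQ (MonoidAlgebra.of ℤ G (c y)))
  have hφ : ∀ r : MonoidAlgebra ℤ G, φ (r • pt G x) = N.mkQ r := by
    intro r
    induction r using MonoidAlgebra.induction_on with
    | of g =>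
      rw [of_smul_pt]
      have h1 : φ (pt G (g • x)) = N.mkQ (MonoidAlgebra.of ℤ G (c (g • x))) := PMadd_pt _ _
      rw [h1, ← sub_eq_zero, ← map_sub, Submodule.mkQ_apply, Submodule.Quotient.mk_eq_zero]
      have h2 : MonoidAlgebra.of ℤ G (c (g • x)) - MonoidAlgebra.of ℤ G g =
          MonoidAlgebra.of ℤ G g • (MonoidAlgebra.of ℤ G (g⁻¹ * c (g • x)) - 1) := by
        rw [smul_eq_mul, mul_sub, mul_one, ← map_mul, mul_inv_cancel_left]
      rw [h2]
      refine N.smul_mem _ (Submodule.subset_span ⟨_, ?_, rfl⟩)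
      rw [mem_stabilizer_iff, mul_smul, hc, inv_smul_smul]
    | add a b ha hb => rw [add_smul, map_add, ha, hb, map_add]
    | smul z a ha => rw [smul_assoc, map_zsmul, ha, ← map_zsmul]
  have h3 := hφ r
  rw [hr, map_zero, Submodule.mkQ_apply, eq_comm, Submodule.Quotient.mk_eq_zero] at h3
  exact h3

theorem t_FP2 : S_FP2 := by
  intro G X _ _ x hx hfp
  let e : MonoidAlgebra ℤ G →ₗ[MonoidAlgebra ℤ G] PM G X :=
    LinearMap.toSpanSingleton (MonoidAlgebra ℤ G) (PM G X) (pt G x)
  have he : ∀ r, e r = r • pt G x := fun r => LinearMap.toSpanSingleton_apply _ _ _ _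
  have hsurj : Function.Surjective e := by
    rw [← LinearMap.range_eq_top, eq_top_iff]
    intro m _
    induction m using PM_induction with
    | h0 => exact Submodule.zero_mem _
    | h1 y =>
      obtain ⟨g, rfl⟩ := hx y
      exact ⟨MonoidAlgebra.of ℤ G g, by rw [he, of_smul_pt]⟩
    | h2 a b ha hb => exact Submodule.add_mem _ (ha trivial) (hb trivial)
    | h3 a ha => exact Submodule.neg_mem _ (ha trivial)
  have hK : (LinearMap.ker e).FG := Module.FinitePresentation.fg_ker e hsurj
  have hKe : LinearMap.ker e = Submodule.span (MonoidAlgebra ℤ G)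
      {a | ∃ h ∈ stabilizer G x, a = MonoidAlgebra.of ℤ G h - 1} := by
    apply le_antisymm
    · intro r hr
      exact ker_le x hx r (by rw [← he]; exact hr)
    · rw [Submodule.span_le]
      rintro a ⟨h, hh, rfl⟩
      rw [SetLike.mem_coe, LinearMap.mem_ker, he, sub_smul, of_smul_pt, one_smul,
        mem_stabilizer_iff.1 hh, sub_self]
  rw [hKe, Submodule.fg_span_iff_fg_span_finset_subset] at hK
  obtain ⟨s, hs, hspan⟩ := hK
  have hs' : ∀ a : MonoidAlgebra ℤ G, ∃ h : G, a ∈ s →
      h ∈ stabilizer G x ∧ a = MonoidAlgebra.of ℤ G h - 1 := by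
    intro a
    by_cases ha : a ∈ s
    · obtain ⟨h, h1, h2⟩ := hs ha
      exact ⟨h, fun _ => ⟨h1, h2⟩⟩
    · exact ⟨1, fun h => absurd h ha⟩
  choose F hF using hs'
  classical
  let H0 : Subgroup G := Subgroup.closure ((s.image F : Finset G) : Set G)
  have hle : H0 ≤ stabilizer G x := by
    rw [Subgroup.closure_le]
    intro g hg
    rw [Finset.mem_coe, Finset.mem_image] at hg
    obtain ⟨a, ha, rfl⟩ := hg
    exact (hF a ha).1
  have hge : stabilizer G x ≤ H0 := by
    intro h hh
    let e0 : MonoidAlgebra ℤ G →ₗ[MonoidAlgebra ℤ G] PM G (G ⧸ H0) :=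
      LinearMap.toSpanSingleton (MonoidAlgebra ℤ G) (PM G (G ⧸ H0)) (pt G ((1 : G) : G ⧸ H0))
    have he0 : ∀ r, e0 r = r • pt G ((1 : G) : G ⧸ H0) :=
      fun r => LinearMap.toSpanSingleton_apply _ _ _ _
    have h1 : Submodule.span (MonoidAlgebra ℤ G) (s : Set (MonoidAlgebra ℤ G)) ≤
        LinearMap.ker e0 := by
      rw [Submodule.span_le]
      intro a ha
      have h2 : F a ∈ H0 := Subgroup.subset_closure (by
        rw [Finset.mem_coe, Finset.mem_image]
        exact ⟨a, ha, rfl⟩)
      rw [SetLike.mem_coe, LinearMap.mem_ker, he0]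
      rw [(hF a ha).2, sub_smul, of_smul_pt, one_smul]
      have h3 : F a • ((1 : G) : G ⧸ H0) = ((1 : G) : G ⧸ H0) := by
        rw [MulAction.Quotient.smul_coe, smul_eq_mul, mul_one, eq_comm, QuotientGroup.eq, inv_one,
          one_mul]
        exact h2
      rw [h3, sub_self]
    have h2 : MonoidAlgebra.of ℤ G h - 1 ∈ Submodule.span (MonoidAlgebra ℤ G)
        (s : Set (MonoidAlgebra ℤ G)) := by
      rw [← hspan]
      exact Submodule.subset_span ⟨h, hh, rfl⟩
    have h3 := h1 h2
    rw [LinearMap.mem_ker, he0, sub_smul, of_smul_pt, one_smul, sub_eq_zero] at h3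
    have h4 : h • ((1 : G) : G ⧸ H0) = ((1 : G) : G ⧸ H0) :=
      Finsupp.single_left_injective (one_ne_zero (α := ℤ)) h3
    rw [MulAction.Quotient.smul_coe, smul_eq_mul, mul_one, eq_comm, QuotientGroup.eq, inv_one,
      one_mul] at h4
    exact h4
  have heq : stabilizer G x = H0 := le_antisymm hge hle
  rw [Group.fg_iff_subgroup_fg, heq]
  exact ⟨s.image F, rfl⟩

end Pool.Agent.U97.FFP
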